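import Pool.Agent.W2helper89.EFCol

/-!
# Locally planar even-faced graphs on orientable surfaces are 4-choosable

A finite graph embedded in the closed orientable surface of genus `g` is described by its rotation
system (`Rotation`, in `Pool.Agent.W2helper89.EFDefs`), whose total genus is at most `g`.
If all facial boundary walks have even length and every noncontractible cycle has length at least
`38 g`, then the graph is 4-choosable.
-/

set_option autoImplicit false

namespace Pool.Agent.Results.MP_caf32e_co.FourChoosable

open Pool.Agent.W2helper89.EF

/-- `G` is `k`-list colourable. -/
def ListColourable {V : Type} (G : SimpleGraph V) (k : ℕ) : Prop :=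
  ∀ L : V → Finset ℕ, (∀ v, k ≤ (L v).card) →
    ∃ c : V → ℕ, (∀ v, c v ∈ L v) ∧ ∀ u v, G.Adj u v → c u ≠ c v

/-- For every genus `g ≥ 1` there is a constant `N`, namely `N = 38 g`, such that every finite graph
with a rotation system of total genus at most `g` all of whose facial boundary walks have even
length and all of whose noncontractible cycles have length at least `N` is 4-list colourable. -/
theorem result (g : ℕ) (hg : 1 ≤ g) (V : Type) [Finite V] (G : SimpleGraph V) (R : Rotation G)
    (hgenus : R.GenusLE g) (heven : R.EvenFaced)
    (hN : ∀ (v : V) (p : G.Walk v v), p.IsCycle → ¬ R.Contractible p → 38 * g ≤ p.length) :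
    ListColourable G 4 :=
  fun L hL => four_choosable g hg V G R hgenus heven hN L hL

end Pool.Agent.Results.MP_caf32e_co.FourChoosable
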